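import Pool.Agent.E8helper7.LC.WB
import Pool.Agent.E8helper9.LC.Fund
import Pool.Agent.E8helper10.LC.Liou
import Pool.Agent.E8helper10.LC.U3
import Pool.Agent.E8helper13.LC.D1C
import Pool.Agent.E8helper13.LC.Repa
import Pool.Agent.E8helper19.LC.Sharp
import Pool.Agent.E8helper22.LC.G5
import Pool.Agent.E8helper22.LC.Tay
import Pool.Agent.E8helper26.LC.TAY2
import Pool.Agent.E8helper38.LC.U1
import Pool.Agent.E8helper40.LC.Rev
import Pool.Agent.E8helper40.LC.U2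
import Pool.Agent.E8helper41.LC.K0
import Pool.Agent.E8helper44.LC.G
import Pool.Agent.E8helper45.LC.Pot
import Pool.Agent.E8helper47.LC.Asy
import Pool.Agent.E8helper51.LC.Conv2
import Pool.Agent.E8helper51.LC.Wc
import Pool.Agent.E8helper52.LC.Chord
import Pool.Agent.E8helper54.LC.Key
import Pool.Agent.E8helper54.LC.Sec
import Pool.Agent.E8helper55.LC.FT
import Pool.Agent.E8helper57.LC.D3
import Pool.Agent.E8helper59.LC.LK
import Pool.Agent.E8helper63.LC.OneD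
import Pool.Agent.E8helper67.LC.D1
import Pool.Agent.E8helper70.LC.Rec
import Pool.Agent.E8helper71.LC.D2b
import Pool.Agent.E8helper71.LC.Op
import Pool.Agent.E8helper71.LC.Wa
import Pool.Agent.E8helper79.LC.D1B
import Pool.Agent.E8helper83.LC.PW
import Pool.Agent.E8helper99.LC.Uni

/-!
# Strong-coupling limit of the scattering matrix for a leaky curve (MP_862eda_mp)

The scattering matrix of `-Δ - α δ(x - Γ)` at the energy `k² - α²/4` converges, as `α → ∞`, to the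
scattering matrix of `-d²/ds² - κ²/4` at the energy `k²`, with the rate `O(α⁻²)`, and this rate is
optimal for every curve which is not a straight line and all large `k`.
-/

set_option autoImplicit false
open MeasureTheory Filter Topology Set Laplacian
open scoped ContDiff Real

namespace Pool.Agent.Results.MP_862eda_mp.ScatteringRateH19

noncomputable section

/-- `ℝ²` -/
abbrev P : Type := EuclideanSpace ℝ (Fin 2)

/-- rotation by a right angle -/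
def rot (v : P) : P := WithLp.toLp 2 ![-v 1, v 0]

/-- `γ` is a curve of class `C⁴` without self-intersections, parametrised by arc length, which
coincides with two straight half-lines (the leads) outside a compact set -/
structure Crv (γ : ℝ → P) (L : ℝ) : Prop where
  pos : 0 < L
  smooth : ContDiff ℝ 4 γ
  unit : ∀ s, ‖deriv γ s‖ = 1
  inj : Function.Injective γ
  left : ∀ s ≤ -L, γ s = γ (-L) + (s + L) • deriv γ (-L)
  right : ∀ s, L ≤ s → γ s = γ L + (s - L) • deriv γ L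

/-- `κ²/4` -/
def V (γ : ℝ → P) (s : ℝ) : ℝ := ‖deriv (deriv γ) s‖ ^ 2 / 4

/-- the plane wave `e^(iks)` -/
def pw (k s : ℝ) : ℂ := Complex.exp (Complex.I * k * s)

/-- `ψ` is a bounded continuous (weak) solution of `-Δψ - α δ_Γ ψ = (k² - α²/4) ψ`: a generalized
eigenfunction of `H_{α,Γ}` -/
structure GEF (α k : ℝ) (γ : ℝ → P) (ψ : P → ℂ) : Prop where
  cont : Continuous ψ
  bdd : ∃ C : ℝ, ∀ x, ‖ψ x‖ ≤ C
  eq : ∀ φ : P → ℂ, ContDiff ℝ ∞ φ → HasCompactSupport φ →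
    (∫ x, ψ x * -(Laplacian.laplacian φ x)) - α * ∫ s, ψ (γ s) * φ (γ s) =
      ((k ^ 2 - α ^ 2 / 4 : ℝ) : ℂ) * ∫ x, ψ x * φ x

/-- `ψ` is asymptotic to the guided wave `(a e^(iks) + b e^(-iks)) e^(-α|u|/2)`, `u` the signed
distance to the curve, in the lead given by `s → -∞` (`F = atBot`) or `s → ∞` (`F = atTop`) -/
def Asy (α k : ℝ) (γ : ℝ → P) (ψ : P → ℂ) (F : Filter ℝ) (a b : ℂ) : Prop :=
  ∀ u : ℝ, Tendsto (fun s => ψ (γ s + u • rot (deriv γ s)) -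
    (a * pw k s + b * pw (-k) s) * (Real.exp (-(α * |u| / 2)) : ℂ)) F (𝓝 0)

/-- `r`, `t` are the reflection and transmission amplitudes of a guided wave coming in from the
left, and `ψ` is the generalized eigenfunction -/
def LeftIn (α k : ℝ) (γ : ℝ → P) (ψ : P → ℂ) (r t : ℂ) : Prop :=
  GEF α k γ ψ ∧ Asy α k γ ψ atBot 1 r ∧ Asy α k γ ψ atTop t 0

/-- the same for a guided wave coming in from the right -/
def RightIn (α k : ℝ) (γ : ℝ → P) (ψ : P → ℂ) (r t : ℂ) : Prop :=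
  GEF α k γ ψ ∧ Asy α k γ ψ atTop r 1 ∧ Asy α k γ ψ atBot 0 t

/-- `f` solves `-f'' - W f = k² f` -/
structure Sol1 (k : ℝ) (W : ℝ → ℝ) (f : ℝ → ℂ) : Prop where
  smooth : ContDiff ℝ 2 f
  eq : ∀ s, -(deriv (deriv f) s) - W s * f s = ((k ^ 2 : ℝ) : ℂ) * f s

/-- `f` is asymptotic to `a e^(iks) + b e^(-iks)` -/
def Asy1 (k : ℝ) (f : ℝ → ℂ) (F : Filter ℝ) (a b : ℂ) : Prop :=
  Tendsto (fun s => f s - (a * pw k s + b * pw (-k) s)) F (𝓝 0)

/-- `r`, `t` are the reflection and transmission amplitudes of `-d²/ds² - W` for a wave coming in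
from the left -/
def LeftIn1 (k : ℝ) (W : ℝ → ℝ) (f : ℝ → ℂ) (r t : ℂ) : Prop :=
  Sol1 k W f ∧ Asy1 k f atBot 1 r ∧ Asy1 k f atTop t 0

/-- the same for a wave coming in from the right -/
def RightIn1 (k : ℝ) (W : ℝ → ℝ) (f : ℝ → ℂ) (r t : ℂ) : Prop :=
  Sol1 k W f ∧ Asy1 k f atTop r 1 ∧ Asy1 k f atBot 0 t

/-- Let `Γ` be a curve as in the problem. (1) For every `k > 0` the amplitudes `r₀, t₀, r₀', t₀'`
of `S_Γ = -d²/ds² - κ²/4` are well defined, and if the leads do not go in the same direction then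
for all large `α` the generalized eigenfunctions of `H_{α,Γ}` and their amplitudes are well defined
and the amplitudes differ from those of `S_Γ` by at most `C/α²`. (2) If moreover `Γ` is not a
straight line, then for all large `k` the difference of the transmission amplitudes is at least
`c k/α²`. (3) If the leads go in the same direction, then there are no such generalized
eigenfunctions. -/
theorem result (γ : ℝ → P) (L : ℝ) (hγ : Crv γ L) :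
    (∀ k : ℝ, 0 < k → ∃ r₀ t₀ r₀' t₀' : ℂ,
      ((∃ f, LeftIn1 k (V γ) f r₀ t₀) ∧ ∀ f r t, LeftIn1 k (V γ) f r t → r = r₀ ∧ t = t₀) ∧
      ((∃ f, RightIn1 k (V γ) f r₀' t₀') ∧
        ∀ f r t, RightIn1 k (V γ) f r t → r = r₀' ∧ t = t₀') ∧
      (deriv γ L ≠ -deriv γ (-L) → ∃ A C : ℝ, 0 < A ∧ ∀ α, A ≤ α →
        (∃ (ψ : P → ℂ) (r t : ℂ), LeftIn α k γ ψ r t ∧
          (∀ ψ' r' t', LeftIn α k γ ψ' r' t' → ψ' = ψ ∧ r' = r ∧ t' = t) ∧
          ‖r - r₀‖ ≤ C / α ^ 2 ∧ ‖t - t₀‖ ≤ C / α ^ 2) ∧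
        ∃ (ψ : P → ℂ) (r t : ℂ), RightIn α k γ ψ r t ∧
          (∀ ψ' r' t', RightIn α k γ ψ' r' t' → ψ' = ψ ∧ r' = r ∧ t' = t) ∧
          ‖r - r₀'‖ ≤ C / α ^ 2 ∧ ‖t - t₀'‖ ≤ C / α ^ 2)) ∧
    (deriv γ L ≠ -deriv γ (-L) → (∃ s, deriv (deriv γ) s ≠ 0) →
      ∃ k₀ c : ℝ, 0 < k₀ ∧ 0 < c ∧ ∀ k, k₀ ≤ k → ∃ A : ℝ, ∀ (α : ℝ) (ψ : P → ℂ) (r t : ℂ)
        (f : ℝ → ℂ) (r₀ t₀ : ℂ), A ≤ α → LeftIn α k γ ψ r t → LeftIn1 k (V γ) f r₀ t₀ →
          c * k / α ^ 2 ≤ ‖t - t₀‖) ∧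
    (deriv γ L = -deriv γ (-L) → ∀ (α k : ℝ) (ψ : P → ℂ) (r t : ℂ), 0 < k →
      ¬ LeftIn α k γ ψ r t ∧ ¬ RightIn α k γ ψ r t) := by
  -- conversion of the definitions
  have cG : ∀ {α k : ℝ} {ψ : P → ℂ}, GEF α k γ ψ ↔ Pool.Agent.E8helper19.LC.GEF α k γ ψ :=
    fun {α k ψ} => ⟨fun h => ⟨h.cont, h.bdd, h.eq⟩, fun h => ⟨h.cont, h.bdd, h.eq⟩⟩
  have cL : ∀ {α k : ℝ} {ψ : P → ℂ} {r t : ℂ},
      LeftIn α k γ ψ r t ↔ Pool.Agent.E8helper19.LC.LeftIn α k γ ψ r t :=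
    fun {α k ψ r t} => ⟨fun h => ⟨cG.1 h.1, h.2.1, h.2.2⟩, fun h => ⟨cG.2 h.1, h.2.1, h.2.2⟩⟩
  have cR : ∀ {α k : ℝ} {ψ : P → ℂ} {r t : ℂ},
      RightIn α k γ ψ r t ↔ Pool.Agent.E8helper19.LC.RightIn α k γ ψ r t :=
    fun {α k ψ r t} => ⟨fun h => ⟨cG.1 h.1, h.2.1, h.2.2⟩, fun h => ⟨cG.2 h.1, h.2.1, h.2.2⟩⟩
  have cS : ∀ {k : ℝ} {W : ℝ → ℝ} {f : ℝ → ℂ}, Sol1 k W f ↔ Pool.Agent.E8helper19.LC.Sol1 k W f :=
    fun {k W f} => ⟨fun h => ⟨h.smooth, h.eq⟩, fun h => ⟨h.smooth, h.eq⟩⟩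
  have cL1 : ∀ {k : ℝ} {W : ℝ → ℝ} {f : ℝ → ℂ} {r t : ℂ},
      LeftIn1 k W f r t ↔ Pool.Agent.E8helper19.LC.LeftIn1 k W f r t :=
    fun {k W f r t} => ⟨fun h => ⟨cS.1 h.1, h.2.1, h.2.2⟩, fun h => ⟨cS.2 h.1, h.2.1, h.2.2⟩⟩
  have cR1 : ∀ {k : ℝ} {W : ℝ → ℝ} {f : ℝ → ℂ} {r t : ℂ},
      RightIn1 k W f r t ↔ Pool.Agent.E8helper19.LC.RightIn1 k W f r t :=
    fun {k W f r t} => ⟨fun h => ⟨cS.1 h.1, h.2.1, h.2.2⟩, fun h => ⟨cS.2 h.1, h.2.1, h.2.2⟩⟩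
  have hγ' : Pool.Agent.E8helper19.LC.Crv γ L :=
    ⟨hγ.pos, hγ.smooth, hγ.unit, hγ.inj, hγ.left, hγ.right⟩
  -- the pieces
  have chord : Pool.Agent.E8helper19.LC.S_CHORD := Pool.Agent.E8helper52.LC.t_CHORD
  have tay : Pool.Agent.E8helper19.LC.S_TAY := Pool.Agent.E8helper22.LC.t_TAY
  have tay2 : Pool.Agent.E8helper19.LC.S_TAY2 := Pool.Agent.E8helper26.LC.t_TAY2
  have gg : Pool.Agent.E8helper19.LC.S_G := Pool.Agent.E8helper44.LC.t_G
  have g5 : Pool.Agent.E8helper19.LC.S_G5 := Pool.Agent.E8helper22.LC.t_G5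
  have ft : Pool.Agent.E8helper19.LC.S_FT := Pool.Agent.E8helper55.LC.t_FT
  have sw : Pool.Agent.E8helper19.LC.S_W :=
    Pool.Agent.E8helper19.LC.t_W (Pool.Agent.E8helper71.LC.t_WA ft gg)
      (Pool.Agent.E8helper7.LC.t_WB ft gg) (Pool.Agent.E8helper51.LC.t_WC ft gg)
  have liou : Pool.Agent.E8helper19.LC.S_LIOU := Pool.Agent.E8helper10.LC.t_LIOU ft gg
  have d3 : Pool.Agent.E8helper19.LC.S_D3 := Pool.Agent.E8helper57.LC.t_D3 chord tay gg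
  have d1 : Pool.Agent.E8helper19.LC.S_D1 := Pool.Agent.E8helper67.LC.t_D1 chord tay gg d3
  have d1b : Pool.Agent.E8helper19.LC.S_D1B := Pool.Agent.E8helper79.LC.t_D1B chord tay gg
  have d1c : Pool.Agent.E8helper19.LC.S_D1C := Pool.Agent.E8helper13.LC.t_D1C chord tay gg tay2
  have d2b : Pool.Agent.E8helper19.LC.S_D2B := Pool.Agent.E8helper71.LC.t_D2B chord tay gg tay2
  have key : Pool.Agent.E8helper19.LC.S_KEY := Pool.Agent.E8helper54.LC.Key.t_KEY d3 liou ft gg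
  have conv : Pool.Agent.E8helper19.LC.SCONV 2 :=
    Pool.Agent.E8helper51.LC.t_CONV2 d1 d1b d1c d2b d3 tay
  have k0 : Pool.Agent.E8helper19.LC.S_K0 := Pool.Agent.E8helper41.LC.t_K0
  have oned : Pool.Agent.E8helper19.LC.S_1DA := Pool.Agent.E8helper63.LC.t_1DA
  have fund : Pool.Agent.E8helper19.LC.S_FUND := Pool.Agent.E8helper9.LC.t_FUND
  have uni : Pool.Agent.E8helper19.LC.S_UNI := Pool.Agent.E8helper99.LC.t_UNI
  have repa : Pool.Agent.E8helper19.LC.S_REPA := Pool.Agent.E8helper13.LC.t_REPA fund uni chord gg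
  have repb : Pool.Agent.E8helper19.LC.S_REPB := Pool.Agent.E8helper45.LC.t_REPB chord gg fund
  have asy : Pool.Agent.E8helper19.LC.S_ASY2 := Pool.Agent.E8helper47.LC.t_ASY2 chord gg ft
  have rev : Pool.Agent.E8helper19.LC.S_REV := Pool.Agent.E8helper40.LC.t_REV
  have left : Pool.Agent.E8helper19.LC.SLEFT 2 :=
    Pool.Agent.E8helper19.LC.t_LEFT 2 (by norm_num) tay sw d3 key conv k0 oned repa repb asy
  have u1 : Pool.Agent.E8helper19.LC.S_U1 := Pool.Agent.E8helper38.LC.t_U1 chord tay gg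
  have u2 : Pool.Agent.E8helper19.LC.S_U2 := Pool.Agent.E8helper40.LC.t_U2 chord tay gg tay2
  have u3 : Pool.Agent.E8helper19.LC.S_U3 := Pool.Agent.E8helper10.LC.t_U3 chord tay gg tay2
  have sec : Pool.Agent.E8helper19.LC.S_SEC := Pool.Agent.E8helper54.LC.Sec.t_SEC chord tay g5 gg d3
  have op : Pool.Agent.E8helper19.LC.S_OP := Pool.Agent.E8helper71.LC.t_OP u1 u2 u3 d3 tay
  have pwl : Pool.Agent.E8helper19.LC.S_PW := Pool.Agent.E8helper83.LC.t_PW u1 u3 sec d3 tay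
  have lk : Pool.Agent.E8helper19.LC.S_LK := Pool.Agent.E8helper59.LC.t_LK oned rev
  have sharp : Pool.Agent.E8helper19.LC.S_SHARP :=
    Pool.Agent.E8helper19.LC.t_SHARP tay sw d3 key conv k0 oned repa rev u1 op pwl lk
      Pool.Agent.E8helper70.LC.t_REC
  refine ⟨fun k hk => ?_, ?_, ?_⟩
  · obtain ⟨r₀, t₀, r₀', t₀', h1, h2, h3, -⟩ :=
      Pool.Agent.E8helper19.LC.t_MAIN 2 tay k0 oned rev left γ L k hγ' hk
    refine ⟨r₀, t₀, r₀', t₀', ⟨?_, ?_⟩, ⟨?_, ?_⟩, ?_⟩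
    · obtain ⟨f, hf⟩ := h1.1
      exact ⟨f, cL1.2 hf⟩
    · intro f r t h
      exact h1.2 f r t (cL1.1 h)
    · obtain ⟨f, hf⟩ := h2.1
      exact ⟨f, cR1.2 hf⟩
    · intro f r t h
      exact h2.2 f r t (cR1.1 h)
    · intro hne
      obtain ⟨A, C, hA, h4⟩ := h3 hne
      refine ⟨A, C, hA, fun α hα => ?_⟩
      obtain ⟨⟨ψ, r, t, a1, a2, a3, a4⟩, ⟨ψ', r', t', b1, b2, b3, b4⟩⟩ := h4 α hα
      exact ⟨⟨ψ, r, t, cL.2 a1, fun _ _ _ h => a2 _ _ _ (cL.1 h), a3, a4⟩,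
        ⟨ψ', r', t', cR.2 b1, fun _ _ _ h => b2 _ _ _ (cR.1 h), b3, b4⟩⟩
  · intro hne hs
    obtain ⟨s, hs⟩ := hs
    have hk2 : Pool.Agent.E8helper19.LC.kap2 γ s ≠ 0 := by
      simp only [Pool.Agent.E8helper19.LC.kap2]
      exact pow_ne_zero 2 (norm_ne_zero_iff.2 hs)
    obtain ⟨k₀, c, hk₀, hc, h⟩ := sharp γ L hγ' hne ⟨s, hk2⟩
    refine ⟨k₀, c, hk₀, hc, fun k hk => ?_⟩
    obtain ⟨A, hA⟩ := h k hk
    exact ⟨A, fun α ψ r t f r₀ t₀ hα h1 h2 => hA α ψ r t f r₀ t₀ hα (cL.1 h1) (cL1.1 h2)⟩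
  · intro he α k ψ r t hk
    exact ⟨fun h => Pool.Agent.E8helper19.LC.no_left hγ' he hk ψ r t h.2.1 h.2.2,
      fun h => Pool.Agent.E8helper19.LC.no_right hγ' he hk ψ r t h.2.1 h.2.2⟩

end

end Pool.Agent.Results.MP_862eda_mp.ScatteringRateH19
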